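import Pool.Agent.H40.Area.Three

open Set Metric

namespace Pool.Agent.Results.MP_4e7729_an.ThirdCase

/-- The case `n = 3` of the Duren-Leung inequality, with a stability term. -/
theorem result :
    ∀ f : ℂ → ℂ, DifferentiableOn ℂ f (Metric.ball (0 : ℂ) 1) →
      Set.InjOn f (Metric.ball (0 : ℂ) 1) → f 0 = 0 → deriv f 0 = 1 →
    ∀ g : ℂ → ℂ, DifferentiableOn ℂ g (Metric.ball (0 : ℂ) 1) → g 0 = 0 →
      (∀ z ∈ Metric.ball (0 : ℂ) 1, z ≠ 0 → f z = z * Complex.exp (g z)) →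
      ‖iteratedDeriv 1 g 0 / (2 * (Nat.factorial 1 : ℂ))‖ ≤ 1 ∧
      ∑ m ∈ Finset.Icc (1:ℕ) 3,
        (1 / (m : ℝ)) * ((m : ℝ) * ‖iteratedDeriv m g 0 / (2 * (m.factorial : ℂ))‖ ^ 2
          - 1 / (m : ℝ)) ≤
        - (1 - ‖iteratedDeriv 1 g 0 / (2 * (Nat.factorial 1 : ℂ))‖ ^ 2) / 25 := by
  intro f _ hinj f0 _ g hg g0 hfg
  have h := Pool.H40.Area.duren_leung_three hinj f0 hg g0 hfg
  have h1 := Pool.H40.Area.ineq_row hinj f0 hg g0 hfg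
  unfold Pool.H40.Area.gam at h h1
  constructor
  · rw [norm_neg] at h1
    have h2 : ‖iteratedDeriv 1 g 0 / (2 * (Nat.factorial 1 : ℂ))‖ ^ 2 ≤ 1 := by
      nlinarith [sq_nonneg ‖-(iteratedDeriv 2 g 0 / (2 * (Nat.factorial 2 : ℂ))) +
        (iteratedDeriv 1 g 0 / (2 * (Nat.factorial 1 : ℂ))) ^ 2 / 2‖,
        sq_nonneg ‖-(iteratedDeriv 3 g 0 / (2 * (Nat.factorial 3 : ℂ))) +
        iteratedDeriv 1 g 0 / (2 * (Nat.factorial 1 : ℂ)) *
          (iteratedDeriv 2 g 0 / (2 * (Nat.factorial 2 : ℂ))) -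
        (iteratedDeriv 1 g 0 / (2 * (Nat.factorial 1 : ℂ))) ^ 3 / 6‖]
    exact (sq_le_one_iff₀ (norm_nonneg _)).1 h2
  · rw [show Finset.Icc (1:ℕ) 3 = {1, 2, 3} by decide, Finset.sum_insert (by decide),
      Finset.sum_insert (by decide), Finset.sum_singleton]
    norm_num at h ⊢
    linarith

end Pool.Agent.Results.MP_4e7729_an.ThirdCase
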